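import Pool.Agent.W648.UN.Stm

/-!
# MP_9f67e3_gt : common lemmas for UN-INV and UN-QQ
-/

set_option autoImplicit false

open MeasureTheory Set Filter Topology
open scoped ContDiff

noncomputable section

namespace Pool.W335.UN

open Pool.Agent.W648.UN

lemma w_int : IntegrableOn (fun s : ℝ => (1 - s) ^ (-(3 / 4) : ℝ)) (Ioo (0 : ℝ) 1) ∧
    ∫ s in Ioo (0 : ℝ) 1, (1 - s) ^ (-(3 / 4) : ℝ) = 4 := by
  have h1 : IntervalIntegrable (fun s : ℝ => s ^ (-(3 / 4) : ℝ)) volume 0 1 :=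
    intervalIntegral.intervalIntegrable_rpow' (by norm_num)
  have h2 : IntervalIntegrable (fun s : ℝ => (1 - s) ^ (-(3 / 4) : ℝ)) volume 0 1 := by
    have := h1.comp_sub_left 1
    simpa using this.symm
  constructor
  · rw [intervalIntegrable_iff_integrableOn_Ioo_of_le zero_le_one] at h2
    exact h2
  · rw [← integral_Ioc_eq_integral_Ioo, ← intervalIntegral.integral_of_le zero_le_one]
    have e := intervalIntegral.integral_comp_sub_left (a := 0) (b := 1)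
      (fun s : ℝ => s ^ (-(3 / 4) : ℝ)) 1
    rw [e, integral_rpow (Or.inl (by norm_num))]
    norm_num

lemma w_nonneg {s : ℝ} (hs : s ∈ Ioo (0 : ℝ) 1) : 0 ≤ (1 - s) ^ (-(3 / 4) : ℝ) :=
  Real.rpow_nonneg (by linarith [hs.2]) _

lemma NB.mono {A : Type} [NormedCommRing A] {H : ℝ → A} {η η' : ℝ} (h : NB H η) (h' : η ≤ η') :
    NB H η' := ⟨h.1, h.2.1, h.2.2.trans h'⟩

lemma NB.congr {A : Type} [NormedCommRing A] {H K : ℝ → A} {η : ℝ} (h : NB H η)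
    (e : ∀ x ∈ Ioo (0 : ℝ) 1, H x = K x) : NB K η := by
  refine ⟨?_, ?_, ?_⟩
  · exact h.1.congr ((ae_restrict_iff' measurableSet_Ioo).2 (Eventually.of_forall e))
  · exact h.2.1.congr_fun (fun x hx => by simp only [e x hx]) measurableSet_Ioo
  · refine le_trans (le_of_eq ?_) h.2.2
    exact setIntegral_congr_fun measurableSet_Ioo (fun x hx => by simp only [e x hx])

lemma NB.add {A : Type} [NormedCommRing A] {H K : ℝ → A} {η θ : ℝ} (h : NB H η)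
    (k : NB K θ) : NB (fun x => H x + K x) (η + θ) := by
  have hm : AEStronglyMeasurable (fun s : ℝ => (1 - s) ^ (-(3 / 4) : ℝ))
      (volume.restrict (Ioo (0 : ℝ) 1)) := w_int.1.aestronglyMeasurable
  have hI : IntegrableOn (fun s : ℝ => ‖H s + K s‖ * (1 - s) ^ (-(3 / 4) : ℝ)) (Ioo (0 : ℝ) 1) := by
    refine Integrable.mono' (h.2.1.add k.2.1) ((h.1.add k.1).norm.mul hm) ?_
    refine (ae_restrict_iff' measurableSet_Ioo).2 (Eventually.of_forall fun x hx => ?_)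
    have w := w_nonneg hx
    rw [Real.norm_eq_abs, abs_of_nonneg (mul_nonneg (norm_nonneg _) w)]
    simp only [Pi.add_apply]
    rw [← add_mul]
    exact mul_le_mul_of_nonneg_right (norm_add_le _ _) w
  refine ⟨h.1.add k.1, hI, ?_⟩
  calc ∫ s in Ioo (0 : ℝ) 1, ‖H s + K s‖ * (1 - s) ^ (-(3 / 4) : ℝ)
      ≤ ∫ s in Ioo (0 : ℝ) 1, (‖H s‖ * (1 - s) ^ (-(3 / 4) : ℝ) +
          ‖K s‖ * (1 - s) ^ (-(3 / 4) : ℝ)) := by
        refine setIntegral_mono_on hI (h.2.1.add k.2.1) measurableSet_Ioo fun x hx => ?_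
        rw [← add_mul]
        exact mul_le_mul_of_nonneg_right (norm_add_le _ _) (w_nonneg hx)
    _ = (∫ s in Ioo (0 : ℝ) 1, ‖H s‖ * (1 - s) ^ (-(3 / 4) : ℝ)) +
          ∫ s in Ioo (0 : ℝ) 1, ‖K s‖ * (1 - s) ^ (-(3 / 4) : ℝ) := integral_add h.2.1 k.2.1
    _ ≤ η + θ := add_le_add h.2.2 k.2.2

lemma NB.of_bdd {A : Type} [NormedCommRing A] {H : ℝ → A} {C : ℝ}
    (hm : AEStronglyMeasurable H (volume.restrict (Ioo (0 : ℝ) 1)))
    (hb : ∀ x ∈ Ioo (0 : ℝ) 1, ‖H x‖ ≤ C) : NB H (C * 4) := by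
  have hw : AEStronglyMeasurable (fun s : ℝ => (1 - s) ^ (-(3 / 4) : ℝ))
      (volume.restrict (Ioo (0 : ℝ) 1)) := w_int.1.aestronglyMeasurable
  have hc : IntegrableOn (fun s : ℝ => C * (1 - s) ^ (-(3 / 4) : ℝ)) (Ioo (0 : ℝ) 1) :=
    w_int.1.const_mul C
  have hI : IntegrableOn (fun s : ℝ => ‖H s‖ * (1 - s) ^ (-(3 / 4) : ℝ)) (Ioo (0 : ℝ) 1) := by
    refine Integrable.mono' hc (hm.norm.mul hw) ?_
    refine (ae_restrict_iff' measurableSet_Ioo).2 (Eventually.of_forall fun x hx => ?_)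
    have w := w_nonneg hx
    rw [Real.norm_eq_abs, abs_of_nonneg (mul_nonneg (norm_nonneg _) w)]
    exact mul_le_mul_of_nonneg_right (hb x hx) w
  refine ⟨hm, hI, ?_⟩
  calc ∫ s in Ioo (0 : ℝ) 1, ‖H s‖ * (1 - s) ^ (-(3 / 4) : ℝ)
      ≤ ∫ s in Ioo (0 : ℝ) 1, C * (1 - s) ^ (-(3 / 4) : ℝ) := by
        refine setIntegral_mono_on hI hc measurableSet_Ioo fun x hx => ?_
        exact mul_le_mul_of_nonneg_right (hb x hx) (w_nonneg hx)
    _ = C * 4 := by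
      have e : ∫ s in Ioo (0 : ℝ) 1, C * (1 - s) ^ (-(3 / 4) : ℝ) =
          C * ∫ s in Ioo (0 : ℝ) 1, (1 - s) ^ (-(3 / 4) : ℝ) := integral_const_mul _ _
      rw [e, w_int.2]

/-- the jump part of the profile -/
lemma NB.jump (X : SA) (ℓ : ℝ) (m : X.A) :
    NB (fun x : ℝ => if Real.exp (-ℓ) ≤ x then X.S (-Real.log x) m else 0) (‖m‖ * 4) := by
  refine NB.of_bdd ?_ ?_
  · have hc : ContinuousOn (fun x : ℝ => X.S (-Real.log x) m) (Ioo (0 : ℝ) 1) := by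
      have h1 : ContinuousOn (fun x : ℝ => -Real.log x) (Ioo (0 : ℝ) 1) :=
        (Real.continuousOn_log.mono (fun x hx => ne_of_gt hx.1)).neg
      exact (X.S_cont m).comp_continuousOn h1
    have h2 : AEStronglyMeasurable (fun x : ℝ => X.S (-Real.log x) m)
        (volume.restrict (Ioo (0 : ℝ) 1)) := hc.aestronglyMeasurable measurableSet_Ioo
    have h3 := h2.indicator (s := Ici (Real.exp (-ℓ))) measurableSet_Ici
    refine h3.congr (Eventually.of_forall fun x => ?_)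
    simp only [Set.indicator_apply, mem_Ici]
  · intro x _
    split_ifs
    · exact X.S_le _ _
    · simp

lemma NB.Hm {X : SA} {κ ℓ : ℝ} {H1 : ℝ → X.A} {m : X.A} (h0 : 0 < κ) (h1 : κ ≤ 1 / 1000)
    (hH : NB H1 κ) (hm : ‖m‖ ≤ κ / 10) : NB (Hm X κ ℓ H1 m) (1 / 40) := by
  have a : NB (fun _ : ℝ => (κ : ℂ) • (1 : X.A)) (κ * 4) := by
    refine NB.of_bdd aestronglyMeasurable_const fun x _ => ?_
    rw [norm_smul, norm_one, mul_one, Complex.norm_real, Real.norm_eq_abs, abs_of_pos h0]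
  have b := NB.add (NB.add a hH) (NB.jump X ℓ m)
  exact NB.mono b (by linarith)

/-- the evaluation as a continuous linear map -/
def evL (X : SA) (t : ℝ) : X.A →L[ℂ] ℂ :=
  LinearMap.mkContinuous (X.ev t).toLinearMap 1 (fun a => by simpa using X.ev_le t a)

lemma evL_apply (X : SA) (t : ℝ) (a : X.A) : evL X t a = X.ev t a := rfl

lemma S_joint (X : SA) {g : ℝ → X.A} {s : Set ℝ} (hg : ContinuousOn g s) :
    ContinuousOn (fun u => X.S u (g u)) s := by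
  intro u hu
  have h1 : Tendsto (fun v => X.S v (g u)) (𝓝[s] u) (𝓝 (X.S u (g u))) :=
    ((X.S_cont (g u)).tendsto u).mono_left nhdsWithin_le_nhds
  have h2 : Tendsto (fun v => X.S v (g v - g u)) (𝓝[s] u) (𝓝 0) := by
    have h3 : Tendsto (fun v => g v - g u) (𝓝[s] u) (𝓝 0) := by
      have := (hg u hu).tendsto.sub_const (g u)
      simpa using this
    rw [tendsto_zero_iff_norm_tendsto_zero] at h3 ⊢
    exact squeeze_zero (fun v => norm_nonneg _) (fun v => X.S_le v _) h3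
  have h4 := h1.add h2
  rw [add_zero] at h4
  refine Tendsto.congr (fun v => ?_) h4
  rw [← map_add]
  congr 1
  abel

lemma ev_Hm (X : SA) (κ ℓ : ℝ) (H1 : ℝ → X.A) (m : X.A) (t x : ℝ) :
    X.ev t (Hm X κ ℓ H1 m x) = (κ : ℂ) + X.ev t (H1 x) +
      (if Real.exp (-ℓ) ≤ x then X.ev (t + Real.log x) m else 0) := by
  unfold Hm
  rw [map_add, map_add, map_smul, map_one, smul_eq_mul, mul_one]
  congr 1
  split_ifs
  · rw [X.ev_S, sub_neg_eq_add]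
  · rw [map_zero]

/-- bound of `VPP` -/
lemma vpp_bd (hFV : S_FUNV) (hV : S_VPP) : ∃ C : ℝ, 0 < C ∧
    ∀ (A : Type) [NormedCommRing A] [NormedAlgebra ℂ A] [CompleteSpace A] [NormOneClass A]
    (H : ℝ → A), NB H (1 / 40) → ∀ u : ℝ, 0 < u →
      ‖VPP H u‖ ≤ C * u ^ (-(3 / 4) : ℝ) * Real.exp (5 * u) := by
  obtain ⟨C, hC, h⟩ := hV
  refine ⟨C, hC, ?_⟩
  intro A _ _ _ _ H hH u hu
  have h0 : NB (fun _ : ℝ => (0 : A)) (1 / 40) := by
    have := NB.of_bdd (H := fun _ : ℝ => (0 : A)) (C := 0) aestronglyMeasurable_const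
      (fun x _ => by simp)
    exact NB.mono this (by norm_num)
  have h1 : NB (fun x => H x - (fun _ : ℝ => (0 : A)) x) (1 / 40) :=
    NB.congr hH (fun x _ => by simp)
  have h2 := (h A H hH).2.2.2.2.2 (fun _ : ℝ => (0 : A)) (1 / 40) h0 h1 u hu
  rw [(hFV.2.2 A u).1, sub_zero] at h2
  refine h2.trans ?_
  have h3 : 0 ≤ C * u ^ (-(3 / 4) : ℝ) * Real.exp (5 * u) := by positivity
  nlinarith

lemma qt_int (hFV : S_FUNV) (hV : S_VPP) {X : SA} {κ ℓ : ℝ} {H1 : ℝ → X.A} {m : X.A}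
    (h0 : 0 < κ) (h1 : κ ≤ 1 / 1000) (hl : 0 < ℓ) (hH : NB H1 κ) (hm : ‖m‖ ≤ κ / 10) :
    IntervalIntegrable (fun u => X.S u (((κ : ℂ) • (1 : X.A) + m) * VPP (Hm X κ ℓ H1 m) u))
      volume 0 ℓ := by
  obtain ⟨C, hC, hb⟩ := vpp_bd hFV hV
  have hN := NB.Hm (ℓ := ℓ) h0 h1 hH hm
  have hcv : ContinuousOn (VPP (Hm X κ ℓ H1 m)) (Ioi 0) := by
    obtain ⟨C', _, h⟩ := hV
    exact (h X.A _ hN).2.1
  have hc : ContinuousOn (fun u => X.S u (((κ : ℂ) • (1 : X.A) + m) * VPP (Hm X κ ℓ H1 m) u))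
      (Ioc 0 ℓ) :=
    S_joint X (continuousOn_const.mul (hcv.mono fun x hx => hx.1))
  rw [intervalIntegrable_iff_integrableOn_Ioc_of_le hl.le]
  have hw : IntegrableOn (fun u : ℝ => (‖(κ : ℂ) • (1 : X.A) + m‖ * (C * Real.exp (5 * ℓ))) *
      u ^ (-(3 / 4) : ℝ)) (Ioc 0 ℓ) := by
    have := intervalIntegral.intervalIntegrable_rpow' (a := 0) (b := ℓ) (r := (-(3 / 4) : ℝ))
      (by norm_num)
    rw [intervalIntegrable_iff_integrableOn_Ioc_of_le hl.le] at this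
    exact this.const_mul _
  refine Integrable.mono' hw (hc.aestronglyMeasurable measurableSet_Ioc) ?_
  refine (ae_restrict_iff' measurableSet_Ioc).2 (Eventually.of_forall fun u hu => ?_)
  have e1 : ‖VPP (Hm X κ ℓ H1 m) u‖ ≤ C * u ^ (-(3 / 4) : ℝ) * Real.exp (5 * ℓ) := by
    refine (hb X.A _ hN u hu.1).trans ?_
    have : Real.exp (5 * u) ≤ Real.exp (5 * ℓ) := Real.exp_le_exp.2 (by linarith [hu.2])
    have h3 : 0 ≤ C * u ^ (-(3 / 4) : ℝ) := mul_nonneg hC.le (Real.rpow_nonneg hu.1.le _)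
    exact mul_le_mul_of_nonneg_left this h3
  calc ‖X.S u (((κ : ℂ) • (1 : X.A) + m) * VPP (Hm X κ ℓ H1 m) u)‖
      ≤ ‖((κ : ℂ) • (1 : X.A) + m) * VPP (Hm X κ ℓ H1 m) u‖ := X.S_le _ _
    _ ≤ ‖(κ : ℂ) • (1 : X.A) + m‖ * ‖VPP (Hm X κ ℓ H1 m) u‖ := norm_mul_le _ _
    _ ≤ ‖(κ : ℂ) • (1 : X.A) + m‖ * (C * u ^ (-(3 / 4) : ℝ) * Real.exp (5 * ℓ)) :=
        mul_le_mul_of_nonneg_left e1 (norm_nonneg _)
    _ = _ := by ring

/-- the evaluation of the operator of the fixed point problem -/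
theorem ev_QT (hFV : S_FUNV) (hV : S_VPP) {X : SA} {κ ℓ : ℝ} {H1 : ℝ → X.A} {m : X.A}
    (h0 : 0 < κ) (h1 : κ ≤ 1 / 1000) (hl : 0 < ℓ) (hH : NB H1 κ) (hm : ‖m‖ ≤ κ / 10)
    (t : ℝ) :
    X.ev t (QT X κ ℓ H1 m) =
      (Real.pi : ℂ) * (((κ : ℂ) + X.ev t m) * lam (fun x => X.ev t (Hm X κ ℓ H1 m x)) 0) +
      ∫ u in (0 : ℝ)..ℓ, ((κ : ℂ) + X.ev (t - u) m) *
        VPP (fun x => X.ev (t - u) (Hm X κ ℓ H1 m x)) u := by
  have hN := NB.Hm (ℓ := ℓ) h0 h1 hH hm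
  have F : ∀ r : ℝ, (X.ev r (lam (Hm X κ ℓ H1 m) 0) = lam (fun x => X.ev r (Hm X κ ℓ H1 m x)) 0) ∧
      ∀ u : ℝ, 0 < u → X.ev r (VPP (Hm X κ ℓ H1 m) u) =
        VPP (fun x => X.ev r (Hm X κ ℓ H1 m x)) u := by
    intro r
    have := hFV.1 X.A ℂ (X.ev r) (X.ev_le r) (Hm X κ ℓ H1 m)
      (fun x => X.ev r (Hm X κ ℓ H1 m x)) hN (fun x _ => rfl)
    exact ⟨this.2.1 0 (by simp [Om]), fun u hu => (this.2.2.2 u hu).2⟩
  have G : X.ev t (∫ u in (0 : ℝ)..ℓ,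
      X.S u (((κ : ℂ) • (1 : X.A) + m) * VPP (Hm X κ ℓ H1 m) u)) =
      ∫ u in (0 : ℝ)..ℓ, X.ev t (X.S u (((κ : ℂ) • (1 : X.A) + m) *
        VPP (Hm X κ ℓ H1 m) u)) := by
    have := (evL X t).intervalIntegral_comp_comm (qt_int hFV hV h0 h1 hl hH hm)
    simp only [evL_apply] at this
    exact this.symm
  unfold QT
  rw [map_add, map_smul, map_mul, map_add, map_smul, map_one, G, (F t).1, smul_eq_mul,
    smul_eq_mul, mul_one]
  congr 1
  refine intervalIntegral.integral_congr_ae (Eventually.of_forall fun u hu => ?_)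
  rw [uIoc_of_le hl.le] at hu
  rw [X.ev_S, map_mul, map_add, map_smul, map_one, (F (t - u)).2 u hu.1, smul_eq_mul, mul_one]

/-- congruence -/
lemma cong (hFV : S_FUNV) {H K : ℝ → ℂ} (hH : NB H (1 / 40))
    (h : ∀ x ∈ Ioo (0 : ℝ) 1, H x = K x) :
    lam H 0 = lam K 0 ∧ ∀ u : ℝ, 0 < u → VPP H u = VPP K u := by
  have := hFV.1 ℂ ℂ (AlgHom.id ℂ ℂ) (fun a => le_rfl) H K hH (fun x hx => h x hx)
  exact ⟨this.2.1 0 (by simp [Om]), fun u hu => (this.2.2.2 u hu).2⟩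

end Pool.W335.UN
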