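import Pool.Agent.W335.UN.Base

/-!
# MP_9f67e3_gt : UN-INV
-/

set_option autoImplicit false

open MeasureTheory Set Filter Topology
open scoped ContDiff

noncomputable section

namespace Pool.W335.UN.INV

open Pool.Agent.W648.UN Pool.W335.UN

lemma im_zero_of (a : ℂ) (h : a.im = 0) : a = ((a.re : ℝ) : ℂ) := by
  apply Complex.ext <;> simp [h]

lemma mul_im {a b : ℂ} (ha : a.im = 0) (hb : b.im = 0) : (a * b).im = 0 := by
  rw [Complex.mul_im, ha, hb]; ring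

lemma qt_im (hFV : S_FUNV) (hV : S_VPP) {X : SA} {κ ℓ : ℝ} {H1 : ℝ → X.A} {m : X.A}
    (h0 : 0 < κ) (h1 : κ ≤ 1 / 1000) (hl : 0 < ℓ) (hH : NB H1 κ) (hm : ‖m‖ ≤ κ / 10)
    (hHi : ∀ x ∈ Ioo (0 : ℝ) 1, ∀ t, (X.ev t (H1 x)).im = 0)
    (hmi : ∀ t, (X.ev t m).im = 0) (t : ℝ) : (X.ev t (QT X κ ℓ H1 m)).im = 0 := by
  have hN := NB.Hm (ℓ := ℓ) h0 h1 hH hm
  have F : ∀ r : ℝ, (lam (fun x => X.ev r (Hm X κ ℓ H1 m x)) 0).im = 0 ∧
      ∀ u : ℝ, 0 < u → (VPP (fun x => X.ev r (Hm X κ ℓ H1 m x)) u).im = 0 := by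
    intro r
    have n := (hFV.1 X.A ℂ (X.ev r) (X.ev_le r) (Hm X κ ℓ H1 m)
      (fun x => X.ev r (Hm X κ ℓ H1 m x)) hN (fun x _ => rfl)).1
    have := hFV.2.1 (fun x => X.ev r (Hm X κ ℓ H1 m x)) n (by
      intro x hx
      simp only [ev_Hm]
      rw [Complex.add_im, Complex.add_im, Complex.ofReal_im, hHi x hx]
      split_ifs
      · rw [hmi]; simp
      · simp)
    refine ⟨?_, fun u hu => (this.2.2 u hu).2⟩
    have h := this.1 0 le_rfl
    simpa using h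
  have K : ∀ r : ℝ, ((κ : ℂ) + X.ev r m).im = 0 := by
    intro r
    rw [Complex.add_im, Complex.ofReal_im, hmi]; simp
  rw [ev_QT hFV hV h0 h1 hl hH hm t, Complex.add_im]
  have e1 : ((Real.pi : ℂ) * (((κ : ℂ) + X.ev t m) *
      lam (fun x => X.ev t (Hm X κ ℓ H1 m x)) 0)).im = 0 :=
    mul_im (Complex.ofReal_im _) (mul_im (K t) (F t).1)
  have e2 : (∫ u in (0 : ℝ)..ℓ, ((κ : ℂ) + X.ev (t - u) m) *
        VPP (fun x => X.ev (t - u) (Hm X κ ℓ H1 m x)) u) =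
      ∫ u in (0 : ℝ)..ℓ, (((((κ : ℂ) + X.ev (t - u) m) *
        VPP (fun x => X.ev (t - u) (Hm X κ ℓ H1 m x)) u).re : ℝ) : ℂ) := by
    refine intervalIntegral.integral_congr_ae (Eventually.of_forall fun u hu => ?_)
    rw [uIoc_of_le hl.le] at hu
    exact im_zero_of _ (mul_im (K _) ((F _).2 u hu.1))
  rw [e1, e2, intervalIntegral.integral_ofReal, Complex.ofReal_im, add_zero]

theorem th (hFV : S_FUNV) (hV : S_VPP) : S_INV := by
  intro X κ ℓ t0 H1 e m h0 h1 hl _ hH hHi hei he0 hm hmi hm0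
  have hz : ‖(0 : X.A)‖ ≤ κ / 10 := by rw [norm_zero]; positivity
  have hzi : ∀ t, (X.ev t (0 : X.A)).im = 0 := fun t => by rw [map_zero]; simp
  have hK : ∀ t, X.ev t (KK X κ ℓ H1 e m) = ((1 / (2 * Real.pi * κ) : ℝ) : ℂ) *
      (X.ev t e - (X.ev t (QT X κ ℓ H1 m) - X.ev t (QT X κ ℓ H1 0) -
        ((2 * Real.pi * κ : ℝ) : ℂ) * X.ev t m)) := by
    intro t
    unfold KK
    rw [map_smul, map_sub, map_sub, map_sub, map_smul, smul_eq_mul, smul_eq_mul]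
  constructor
  · intro t
    rw [hK t]
    refine mul_im (Complex.ofReal_im _) ?_
    rw [Complex.sub_im, Complex.sub_im, Complex.sub_im, hei,
      qt_im hFV hV h0 h1 hl hH hm hHi hmi, qt_im hFV hV h0 h1 hl hH hz hHi hzi,
      mul_im (Complex.ofReal_im _) (hmi t)]
    simp
  · intro t ht
    rw [hK t, he0 t ht, hm0 t ht]
    have hN := NB.Hm (ℓ := ℓ) h0 h1 hH hm
    have C : ∀ r ≤ t0, (lam (fun x => X.ev r (Hm X κ ℓ H1 m x)) 0 =
        lam (fun x => X.ev r (Hm X κ ℓ H1 0 x)) 0) ∧ ∀ u : ℝ, 0 < u →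
        VPP (fun x => X.ev r (Hm X κ ℓ H1 m x)) u = VPP (fun x => X.ev r (Hm X κ ℓ H1 0 x)) u := by
      intro r hr
      have n := (hFV.1 X.A ℂ (X.ev r) (X.ev_le r) (Hm X κ ℓ H1 m)
        (fun x => X.ev r (Hm X κ ℓ H1 m x)) hN (fun x _ => rfl)).1
      refine cong hFV n fun x hx => ?_
      simp only [ev_Hm]
      have hx' : r + Real.log x ≤ t0 := by
        have := Real.log_neg hx.1 hx.2
        linarith
      rw [hm0 _ hx', map_zero]
    have e : X.ev t (QT X κ ℓ H1 m) = X.ev t (QT X κ ℓ H1 0) := by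
      rw [ev_QT hFV hV h0 h1 hl hH hm t, ev_QT hFV hV h0 h1 hl hH hz t, hm0 t ht, (C t ht).1,
        map_zero]
      congr 1
      refine intervalIntegral.integral_congr_ae (Eventually.of_forall fun u hu => ?_)
      rw [uIoc_of_le hl.le] at hu
      have hr : t - u ≤ t0 := by linarith [hu.1]
      rw [hm0 _ hr, map_zero, (C _ hr).2 u hu.1]
    rw [e]
    simp

end Pool.W335.UN.INV
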