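import Pool.Agent.W335.UN.Base

/-!
# MP_9f67e3_gt : UN-QQ
-/

set_option autoImplicit false

open MeasureTheory Set Filter Topology
open scoped ContDiff

noncomputable section

namespace Pool.W335.UN.QQ

open Pool.Agent.W648.UN Pool.W335.UN

/-- integrability of the integrand of `QQ` -/
lemma qq_int (hFV : S_FUNV) (hV : S_VPP) (hC : S_CTS) {h : ℝ → ℝ} (hh : okh h) (s : ℝ) :
    IntegrableOn (fun u => ((h (s - u) : ℝ) : ℂ) * VPP (HH h (s - u)) u) (Ioi (0 : ℝ)) := by
  obtain ⟨C, hC0, hb⟩ := vpp_bd hFV hV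
  obtain ⟨n1, _, _, _, _, c6⟩ := hC h hh
  have hcont : ContinuousOn (fun u => ((h (s - u) : ℝ) : ℂ) * VPP (HH h (s - u)) u)
      (Ioi (0 : ℝ)) := by
    refine ContinuousOn.mul ?_ ?_
    · exact (Complex.continuous_ofReal.comp
        (hh.1.comp (continuous_const.sub continuous_id))).continuousOn
    · have := c6.comp (f := fun u : ℝ => ((s - u, u) : ℝ × ℝ)) (s := Ioi (0 : ℝ))
        (Continuous.continuousOn (by fun_prop)) (fun u hu => ⟨mem_univ _, hu⟩)
      exact this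
  set R : ℝ := max s 1 with hR
  have hR0 : (0 : ℝ) < R := lt_of_lt_of_le one_pos (le_max_right _ _)
  have hsR : s ≤ R := le_max_left _ _
  have e : Ioi (0 : ℝ) = Ioc 0 R ∪ Ioi R := (Ioc_union_Ioi_eq_Ioi hR0.le).symm
  rw [e, integrableOn_union]
  constructor
  · have hw : IntegrableOn (fun u : ℝ => (1 * (C * Real.exp (5 * R))) *
        u ^ (-(3 / 4) : ℝ)) (Ioc 0 R) := by
      have := intervalIntegral.intervalIntegrable_rpow' (a := 0) (b := R) (r := (-(3 / 4) : ℝ))
        (by norm_num)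
      rw [intervalIntegrable_iff_integrableOn_Ioc_of_le hR0.le] at this
      exact this.const_mul _
    refine Integrable.mono' hw
      ((hcont.mono fun x hx => hx.1).aestronglyMeasurable measurableSet_Ioc) ?_
    refine (ae_restrict_iff' measurableSet_Ioc).2 (Eventually.of_forall fun u hu => ?_)
    have e1 : ‖VPP (HH h (s - u)) u‖ ≤ C * u ^ (-(3 / 4) : ℝ) * Real.exp (5 * R) := by
      refine (hb ℂ _ (NB.mono (n1 _) (by norm_num)) u hu.1).trans ?_
      have : Real.exp (5 * u) ≤ Real.exp (5 * R) := Real.exp_le_exp.2 (by linarith [hu.2])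
      have h3 : 0 ≤ C * u ^ (-(3 / 4) : ℝ) := mul_nonneg hC0.le (Real.rpow_nonneg hu.1.le _)
      exact mul_le_mul_of_nonneg_left this h3
    have e2 : ‖((h (s - u) : ℝ) : ℂ)‖ ≤ 1 := by
      rw [Complex.norm_real, Real.norm_eq_abs]
      exact (hh.2.2 _).trans (by norm_num)
    calc ‖((h (s - u) : ℝ) : ℂ) * VPP (HH h (s - u)) u‖
        ≤ ‖((h (s - u) : ℝ) : ℂ)‖ * ‖VPP (HH h (s - u)) u‖ := norm_mul_le _ _
      _ ≤ 1 * (C * u ^ (-(3 / 4) : ℝ) * Real.exp (5 * R)) :=
          mul_le_mul e2 e1 (norm_nonneg _) zero_le_one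
      _ = _ := by ring
  · refine (integrableOn_zero).congr_fun (fun u hu => ?_) measurableSet_Ioi
    have : h (s - u) = 0 := hh.2.1 _ (by have : R < u := hu; linarith)
    simp [this]

theorem th (hFV : S_FUNV) (hV : S_VPP) (hC : S_CTS) : S_QQ := by
  intro X κ ℓ t0 H1 m h0 k0 k1 hl hl1 ht0 hH ok0 hk hkb hH1 hm hmi hm0
  have hz : ‖(0 : X.A)‖ ≤ κ / 10 := by rw [norm_zero]; positivity
  have hre : ∀ t, ((X.ev t m).re : ℂ) = X.ev t m := by
    intro t
    apply Complex.ext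
    · simp
    · simp [hmi t]
  have hok : okh (fun t => h0 t + (X.ev t m).re) := by
    refine ⟨?_, ?_, ?_⟩
    · exact ok0.1.add (Complex.continuous_re.comp (X.smooth m).continuous)
    · intro t ht
      simp only [ok0.2.1 t ht, hm0 t (by linarith), Complex.zero_re, add_zero]
    · intro t
      have a1 : |(X.ev t m).re| ≤ κ / 10 :=
        (Complex.abs_re_le_norm _).trans ((X.ev_le t m).trans hm)
      have a2 := abs_add_le (h0 t) (X.ev t m).re
      have a3 := hkb t
      linarith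
  have hheq : ∀ t < t0, h0 t + (X.ev t m).re = h0 t := by
    intro t ht
    rw [hm0 t ht.le, Complex.zero_re, add_zero]
  set h : ℝ → ℝ := fun t => h0 t + (X.ev t m).re with hdef
  have hht : ∀ t < t0, h t = h0 t := hheq
  have nH : ∀ t, NB (HH h t) (1 / 40) := fun t => NB.mono ((hC h hok).1 t) (by norm_num)
  have nH0 : ∀ t, NB (HH h0 t) (1 / 40) := fun t => NB.mono ((hC h0 ok0).1 t) (by norm_num)
  have hlt : ∀ t < t0, lam (HH h t) 0 = lam (HH h0 t) 0 ∧
      ∀ u : ℝ, 0 < u → VPP (HH h t) u = VPP (HH h0 t) u := by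
    intro t ht
    refine cong hFV (nH t) fun x hx => ?_
    have := Real.log_neg hx.1 hx.2
    unfold HH
    rw [hht _ (by linarith)]
  -- formulas near `t0`
  have hlt0 : ∀ t, t0 - ℓ ≤ t → (lam (HH h0 t) 0 = lam (fun x => X.ev t (Hm X κ ℓ H1 0 x)) 0) ∧
      ∀ u : ℝ, 0 < u → VPP (HH h0 t) u = VPP (fun x => X.ev t (Hm X κ ℓ H1 0 x)) u := by
    intro t ht
    refine cong hFV (nH0 t) fun x hx => ?_
    rw [ev_Hm, hH1 x hx t (by linarith), map_zero]
    unfold HH
    push_cast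
    split_ifs <;> ring
  have hltm : ∀ t, t0 - ℓ ≤ t → t < t0 + ℓ →
      (lam (HH h t) 0 = lam (fun x => X.ev t (Hm X κ ℓ H1 m x)) 0) ∧
      ∀ u : ℝ, 0 < u → VPP (HH h t) u = VPP (fun x => X.ev t (Hm X κ ℓ H1 m x)) u := by
    intro t ht ht'
    refine cong hFV (nH t) fun x hx => ?_
    rw [ev_Hm, hH1 x hx t (by linarith)]
    unfold HH
    rw [hdef]
    push_cast
    rw [hre]
    split_ifs with hx2
    · ring
    · have hx3 : Real.log x < -ℓ := by
        rw [Real.log_lt_iff_lt_exp hx.1]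
        exact not_le.1 hx2
      rw [hm0 _ (by linarith)]
      ring
  refine ⟨hok, ?_, ?_⟩
  · intro s hs
    unfold QQ
    rw [hht s hs, (hlt s hs).1]
    congr 1
    refine setIntegral_congr_fun measurableSet_Ioi fun u hu => ?_
    have hu' : (0 : ℝ) < u := hu
    have : s - u < t0 := by linarith
    simp only [hht _ this, (hlt _ this).2 u hu']
  · intro s hs hs'
    have hsplit : (∫ u in Ioi (0 : ℝ), ((h (s - u) : ℝ) : ℂ) * VPP (HH h (s - u)) u) -
        (∫ u in Ioi (0 : ℝ), ((h0 (s - u) : ℝ) : ℂ) * VPP (HH h0 (s - u)) u) =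
        (∫ u in (0 : ℝ)..ℓ, ((κ : ℂ) + X.ev (s - u) m) *
        VPP (fun x => X.ev (s - u) (Hm X κ ℓ H1 m x)) u) -
        ∫ u in (0 : ℝ)..ℓ, ((κ : ℂ) + X.ev (s - u) 0) *
        VPP (fun x => X.ev (s - u) (Hm X κ ℓ H1 0 x)) u := by
      have i1 := qq_int hFV hV hC hok s
      have i2 := qq_int hFV hV hC ok0 s
      have e : Ioi (0 : ℝ) = Ioc 0 ℓ ∪ Ioi ℓ := (Ioc_union_Ioi_eq_Ioi hl.le).symm
      have j1 := i1.mono_set (Ioc_subset_Ioi_self : Ioc (0 : ℝ) ℓ ⊆ Ioi 0)
      have j1' := i1.mono_set (Ioi_subset_Ioi hl.le : Ioi ℓ ⊆ Ioi (0 : ℝ))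
      have j2 := i2.mono_set (Ioc_subset_Ioi_self : Ioc (0 : ℝ) ℓ ⊆ Ioi 0)
      have j2' := i2.mono_set (Ioi_subset_Ioi hl.le : Ioi ℓ ⊆ Ioi (0 : ℝ))
      have d : Disjoint (Ioc (0 : ℝ) ℓ) (Ioi ℓ) := by
        rw [Set.disjoint_left]
        intro x hx hx'
        exact absurd hx.2 (not_le.2 hx')
      have tail : (∫ u in Ioi ℓ, ((h (s - u) : ℝ) : ℂ) * VPP (HH h (s - u)) u) =
          ∫ u in Ioi ℓ, ((h0 (s - u) : ℝ) : ℂ) * VPP (HH h0 (s - u)) u := by
        refine setIntegral_congr_fun measurableSet_Ioi fun u hu => ?_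
        have hu' : ℓ < u := hu
        have : s - u < t0 := by linarith
        simp only [hht _ this, (hlt _ this).2 u (by linarith)]
      have p1 : (∫ u in Ioc 0 ℓ, ((h (s - u) : ℝ) : ℂ) * VPP (HH h (s - u)) u) =
          ∫ u in (0 : ℝ)..ℓ, ((κ : ℂ) + X.ev (s - u) m) *
          VPP (fun x => X.ev (s - u) (Hm X κ ℓ H1 m x)) u := by
        rw [intervalIntegral.integral_of_le hl.le]
        refine setIntegral_congr_fun measurableSet_Ioc fun u hu => ?_
        have hk1 : h0 (s - u) = κ := hk _ (by linarith [hu.2])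
        have hh1 : ((h (s - u) : ℝ) : ℂ) = (κ : ℂ) + X.ev (s - u) m := by
          rw [hdef]
          push_cast
          rw [hre, hk1]
        simp only [hh1, (hltm (s - u) (by linarith [hu.2]) (by linarith [hu.1])).2 u hu.1]
      have p2 : (∫ u in Ioc 0 ℓ, ((h0 (s - u) : ℝ) : ℂ) * VPP (HH h0 (s - u)) u) =
          ∫ u in (0 : ℝ)..ℓ, ((κ : ℂ) + X.ev (s - u) 0) *
          VPP (fun x => X.ev (s - u) (Hm X κ ℓ H1 0 x)) u := by
        rw [intervalIntegral.integral_of_le hl.le]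
        refine setIntegral_congr_fun measurableSet_Ioc fun u hu => ?_
        have hk1 : h0 (s - u) = κ := hk _ (by linarith [hu.2])
        simp only [hk1, map_zero, add_zero, (hlt0 (s - u) (by linarith [hu.2])).2 u hu.1]
      rw [e, setIntegral_union d measurableSet_Ioi j1 j1',
        setIntegral_union d measurableSet_Ioi j2 j2', tail, p1, p2]
      ring
    have hk1 : h0 s = κ := hk _ (by linarith)
    have hh1 : ((h s : ℝ) : ℂ) = (κ : ℂ) + X.ev s m := by
      rw [hdef]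
      push_cast
      rw [hre, hk1]
    rw [map_sub, ev_QT hFV hV k0 k1 hl hH hm s, ev_QT hFV hV k0 k1 hl hH hz s]
    unfold QQ
    rw [hh1, hk1, (hltm s (by linarith) hs').1, (hlt0 s (by linarith)).1, map_zero, add_zero]
    linear_combination hsplit

end Pool.W335.UN.QQ
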